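import Pool.Agent.H62.LP.T1

/-!
# Loop percolation in dimension three: balls and spheres, the maximum principle (CNT, MAX)
-/

set_option autoImplicit false

open MeasureTheory ProbabilityTheory Filter Topology
open scoped ENNReal NNReal

namespace Pool.Agent.H60.LP

open Pool.Agent.H62.LP

theorem nm_le_iff {d : ℕ} (x : Vt d) (r : ℕ) : nm x ≤ r ↔ ∀ i, (x i).natAbs ≤ r := by
  unfold nm
  rw [Finset.sup_le_iff]
  exact ⟨fun h i => h i (Finset.mem_univ i), fun h i _ => h i⟩

theorem Bl_eq (z : V3) (r : ℕ) :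
    Bl z r = ↑(Fintype.piFinset fun i => Finset.Icc (z i - (r : ℤ)) (z i + r)) := by
  ext x
  simp only [Bl, Set.mem_setOf_eq, nm_le_iff, Finset.mem_coe, Fintype.mem_piFinset,
    Finset.mem_Icc, Pi.sub_apply]
  refine forall_congr' fun i => ?_
  omega

theorem Bl_finite (z : V3) (r : ℕ) : (Bl z r).Finite := by
  rw [Bl_eq]
  exact Finset.finite_toSet _

theorem Bl_ncard (z : V3) (r : ℕ) : (Bl z r).ncard = (2 * r + 1) ^ 3 := by
  rw [Bl_eq, Set.ncard_coe_finset, Fintype.card_piFinset]
  have : ∀ i : Fin 3, (Finset.Icc (z i - (r : ℤ)) (z i + r)).card = 2 * r + 1 := by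
    intro i
    rw [Int.card_Icc]
    omega
  simp only [this, Finset.prod_const, Finset.card_univ, Fintype.card_fin]

theorem pf_CNT : T_CNT := by
  refine ⟨fun z r => ⟨Bl_finite z r, Bl_ncard z r⟩, fun z r => ?_⟩
  rcases Nat.eq_zero_or_pos r with hr | hr
  · subst hr
    have h1 : {y : V3 | nm (y - z) = 0} ⊆ Bl z 0 := fun y hy => le_of_eq hy
    have h2 := Set.ncard_le_ncard h1 (Bl_finite z 0)
    rw [Bl_ncard] at h2
    omega
  · have h1 : {y : V3 | nm (y - z) = r} ⊆ Bl z r \ Bl z (r - 1) := by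
      intro y hy
      have hy' : nm (y - z) = r := hy
      refine ⟨le_of_eq hy', ?_⟩
      show ¬ nm (y - z) ≤ r - 1
      omega
    have h2 := Set.ncard_le_ncard h1 ((Bl_finite z r).diff)
    have h3 : Bl z (r - 1) ⊆ Bl z r := fun y hy => by
      have : nm (y - z) ≤ r - 1 := hy
      show nm (y - z) ≤ r
      omega
    rw [Set.ncard_diff h3 (Bl_finite z (r - 1)), Bl_ncard, Bl_ncard] at h2
    obtain ⟨k, rfl⟩ : ∃ k, r = k + 1 := ⟨r - 1, by omega⟩
    have h4 : (2 * (k + 1) + 1) ^ 3 - (2 * (k + 1 - 1) + 1) ^ 3 ≤ 26 * (k + 1 + 1) ^ 2 := by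
      rw [Nat.sub_le_iff_le_add]
      simp only [Nat.add_sub_cancel]
      nlinarith [sq_nonneg k]
    exact le_trans h2 h4

theorem pf_MAX : T_MAX := by
  intro u S A hA hsub hS hfin x₀
  by_contra hc
  push Not at hc
  have hpos : 0 < u x₀ := lt_of_le_of_lt hA hc
  have hF := hfin (u x₀) hpos
  obtain ⟨x₁, hx₁, hmax⟩ := hF.exists_maximalFor u _ ⟨x₀, show u x₀ ≤ u x₀ from le_rfl⟩
  have hx₁' : u x₀ ≤ u x₁ := hx₁
  have hle : ∀ y, u y ≤ u x₁ := by
    intro y
    by_cases hy : u x₀ ≤ u y
    · by_contra hlt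
      push Not at hlt
      have := hmax hy hlt.le
      linarith
    · push Not at hy
      linarith
  have step : ∀ y, u y = u x₁ → u (y + Pi.single 0 1) = u x₁ := by
    intro y hy
    have hyS : y ∉ S := by
      intro h
      have := hS y h
      linarith
    have h1 := hsub y hyS
    rw [hy] at h1
    unfold avg at h1
    rw [Fin.sum_univ_three] at h1
    have a1 := hle (y + Pi.single 0 1)
    have a2 := hle (y - Pi.single 0 1)
    have a3 := hle (y + Pi.single 1 1)
    have a4 := hle (y - Pi.single 1 1)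
    have a5 := hle (y + Pi.single 2 1)
    have a6 := hle (y - Pi.single 2 1)
    linarith
  have all : ∀ k : ℕ, u (x₁ + (k : ℤ) • Pi.single 0 1) = u x₁ := by
    intro k
    induction k with
    | zero => simp
    | succ k ih =>
      have := step _ ih
      rw [← this]
      congr 1
      push_cast
      rw [add_smul, one_smul, add_assoc]
  have hinf : Set.Infinite {x | u x₁ ≤ u x} := by
    apply Set.infinite_of_injective_forall_mem
      (f := fun k : ℕ => x₁ + (k : ℤ) • (Pi.single 0 1 : V3))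
    · intro k l hkl
      have h := congrFun hkl 0
      simp at h
      exact h
    · intro k
      exact (all k).ge
  exact hinf (hfin (u x₁) (by linarith))

end Pool.Agent.H60.LP
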