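import Pool.Agent.H62.LP.T1
import Pool.Agent.H62.LP.T2

/-!
# Loop percolation in dimension three: the fat lemma, measurability, good loops (FAT, FME, HLF)
-/

set_option autoImplicit false

open MeasureTheory ProbabilityTheory Filter Topology
open scoped ENNReal NNReal

namespace Pool.Agent.H60.LP

open Pool.Agent.H62.LP

theorem FB_mono {ε : ℝ≥0} {M : ℕ} {κ : ℝ≥0} {a a' : ℝ} {n : ℕ} (h : a ≤ a')
    (hF : FB ε M κ a' n) : FB ε M κ a n := by
  intro s hs K z hK hz hy
  exact (ENNReal.ofReal_le_ofReal h).trans (hF s hs K z hK hz hy)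

theorem pf_FAT (hBAS : T_BAS) (hSTP : T_STP) : T_FAT := by
  intro C₀ c₁ κ M hGU hM hHL ε hε
  obtain ⟨c₄, hc₄, hbas⟩ := hBAS C₀ c₁ κ M hGU hM hHL ε hε
  obtain ⟨a₀, C₄, ha₀, hC₄, hstp⟩ := hSTP C₀ c₁ κ M hGU hM hHL ε hε
  obtain ⟨b, hb0, hb1, hb2, hb3⟩ : ∃ b : ℝ, 0 < b ∧ b ≤ 1 ∧ b ≤ a₀ ∧ b * (1 + 3 * C₄) ≤ c₄ := by
    refine ⟨min 1 (min a₀ (c₄ / (1 + 3 * C₄))), by positivity, min_le_left _ _,
      (min_le_right _ _).trans (min_le_left _ _), ?_⟩
    rw [← le_div_iff₀ (by positivity)]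
    exact (min_le_right _ _).trans (min_le_right _ _)
  have ha : b ^ 2 ≤ a₀ := by nlinarith
  have ha1 : 0 < b ^ 2 := by positivity
  have hlog : Real.log (1 / b ^ 2) ≤ 2 / b := by
    have h1 : (1 : ℝ) / b ^ 2 = (1 / b) ^ 2 := by rw [div_pow, one_pow]
    rw [h1, Real.log_pow]
    have h2 := Real.log_le_sub_one_of_pos (show 0 < 1 / b by positivity)
    have h3 : (2 : ℝ) / b = 2 * (1 / b) := by ring
    rw [h3]
    push_cast
    linarith
  have hkey : b ^ 2 * (1 + C₄ * (1 + Real.log (1 / b ^ 2))) ≤ c₄ := by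
    have h1 : b ^ 2 * (1 + C₄ * (1 + Real.log (1 / b ^ 2))) ≤
        b ^ 2 * (1 + C₄ * (1 + 2 / b)) := by
      apply mul_le_mul_of_nonneg_left _ ha1.le
      have := mul_le_mul_of_nonneg_left hlog hC₄.le
      linarith
    have h2 : b ^ 2 * (1 + C₄ * (1 + 2 / b)) = b ^ 2 * (1 + C₄) + 2 * C₄ * b := by
      field_simp
      ring
    have h3 : b ^ 2 * (1 + C₄) ≤ b * (1 + C₄) := by
      apply mul_le_mul_of_nonneg_right _ (by positivity)
      nlinarith
    nlinarith
  refine ⟨b ^ 2, ha1, ?_⟩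
  intro n
  induction n using Nat.strong_induction_on with
  | _ n ih =>
    intro hn
    by_cases hc : C₄ * (1 + Real.log (1 / b ^ 2)) ≤ Real.log n
    · exact hstp (b ^ 2) ha1 ha n hc (fun m hm1 hm2 => ih m hm2 hm1)
    · push Not at hc
      refine FB_mono ?_ (hbas n hn)
      have hl0 : 0 ≤ Real.log n := Real.log_nonneg (by exact_mod_cast hn)
      rw [le_div_iff₀ (by positivity)]
      refine le_trans (mul_le_mul_of_nonneg_left ?_ ha1.le) hkey
      linarith

/-! ### Measurability -/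

theorem Conn_mono {S T : Set Pool.Agent.H62.LP.Lp} (h : S ⊆ T) {x y : V3} (hc : Conn S x y) : Conn T x y := by
  unfold Conn at *
  induction hc with
  | refl => exact Relation.ReflTransGen.refl
  | tail _ hbc ih =>
    obtain ⟨c, hc, hu⟩ := hbc
    exact Relation.ReflTransGen.tail ih ⟨c, h hc, hu⟩

theorem Conn_fin {S : Set Pool.Agent.H62.LP.Lp} {x y : V3} (h : Conn S x y) :
    ∃ F : Finset Pool.Agent.H62.LP.Lp, (F : Set Pool.Agent.H62.LP.Lp) ⊆ S ∧ Conn F x y := by
  classical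
  unfold Conn at h
  induction h with
  | refl => exact ⟨∅, by simp, Relation.ReflTransGen.refl⟩
  | tail _ hbc ih =>
    obtain ⟨F, hF, hc⟩ := ih
    obtain ⟨c, hcS, hbc'⟩ := hbc
    refine ⟨insert c F, ?_, ?_⟩
    · intro d hd
      rw [Finset.coe_insert, Set.mem_insert_iff] at hd
      rcases hd with rfl | hd
      · exact hcS
      · exact hF hd
    · have h1 := Conn_mono (T := ((insert c F : Finset Pool.Agent.H62.LP.Lp) : Set Pool.Agent.H62.LP.Lp))
        (by rw [Finset.coe_insert]; exact Set.subset_insert _ _) hc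
      exact Relation.ReflTransGen.tail h1 ⟨c, by simp, hbc'⟩

theorem Ins_mono {z : V3} {r : ℕ} {S T : Set Pool.Agent.H62.LP.Lp} (h : S ⊆ T) : Ins z r S ⊆ Ins z r T :=
  fun _ hc => ⟨h hc.1, hc.2⟩

theorem Ins_Ins (z : V3) (r : ℕ) (S : Set Pool.Agent.H62.LP.Lp) : Ins z r (Ins z r S) = Ins z r S := by
  ext c
  exact ⟨fun h => h.1, fun h => ⟨h, h.2⟩⟩

theorem FatAt_mono {M : ℕ} {κ : ℝ≥0} {s : ℤ} {z : V3} {n : ℕ} {K : Set V3} {S T : Set Pool.Agent.H62.LP.Lp}
    (h : S ⊆ T) {c : Pool.Agent.H62.LP.Lp} (hc : FatAt M κ s z n K S c) : FatAt M κ s z n K T c := by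
  obtain ⟨h1, h2, x, hx, y, hy, h3⟩ := hc
  exact ⟨Ins_mono h h1, h2, x, hx, y, hy, Conn_mono (Ins_mono h) h3⟩

instance : Countable Pool.Agent.H62.LP.Lp := by
  unfold Pool.Agent.H62.LP.Lp Cycle
  infer_instance

theorem pf_FME (hFMS : T_FMS) : T_FME := by
  intro M κ s z n K
  have h1 : ∀ c, MeasurableSet {N : Pool.Agent.H62.LP.Lp → ℕ | FatAt M κ s z n K (sp N) c} := by
    intro c
    refine hFMS Pool.Agent.H62.LP.Lp (fun S => FatAt M κ s z n K S c) ?_
    intro S
    constructor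
    · rintro ⟨h1, h2, x, hx, y, hy, h3⟩
      classical
      obtain ⟨F, hF, hc⟩ := Conn_fin h3
      refine ⟨insert c F, ?_, ?_, h2, x, hx, y, hy, ?_⟩
      · intro d hd
        rw [Finset.coe_insert, Set.mem_insert_iff] at hd
        rcases hd with rfl | hd
        · exact h1.1
        · exact (hF hd).1
      · exact ⟨by simp, h1.2⟩
      · refine Conn_mono ?_ hc
        intro d hd
        refine ⟨?_, (hF hd).2⟩
        rw [Finset.coe_insert]
        exact Set.mem_insert_of_mem _ hd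
    · rintro ⟨F, hF, hc⟩
      exact FatAt_mono hF hc
  refine ⟨h1, ?_, ?_⟩
  · have : {N : Pool.Agent.H62.LP.Lp → ℕ | FatEv M κ s z n K (sp N)} =
        ⋃ c, {N : Pool.Agent.H62.LP.Lp → ℕ | FatAt M κ s z n K (sp N) c} := by
      ext N
      simp only [FatEv, Set.mem_setOf_eq, Set.mem_iUnion]
    rw [this]
    exact MeasurableSet.iUnion h1
  · intro S c
    unfold FatAt
    rw [Ins_Ins]

/-! ### Good loops are fat -/

theorem sum_map_eq {V : Type} [DecidableEq V] (g : V → ℝ≥0∞) (l : List V) :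
    (l.map g).sum = ∑' x, (l.count x : ℝ≥0∞) * g x := by
  induction l with
  | nil => simp
  | cons a l ih =>
    rw [List.map_cons, List.sum_cons, ih]
    have h1 : ∀ x, (((a :: l).count x : ℕ) : ℝ≥0∞) * g x =
        (if x = a then g x else 0) + (l.count x : ℝ≥0∞) * g x := by
      intro x
      rw [List.count_cons]
      by_cases hx : x = a
      · subst hx
        simp only [beq_self_eq_true, if_true]
        push_cast
        ring
      · have h2 : (a == x) = false := by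
          simp only [beq_eq_false_iff_ne, ne_eq]
          exact fun h => hx h.symm
        simp [h2, hx]
    simp only [h1]
    rw [ENNReal.tsum_add, tsum_eq_single a (fun b hb => if_neg hb), if_pos rfl]

theorem pf_HLF (hPOT : T_POT) : T_HLF := by
  intro κ n s l h hne
  set f : V3 → ℝ≥0∞ := fun x => (l.count x : ℝ≥0∞) * oneR s n x with hf
  have hmass : mass f = vis (oneR s n) l := by
    unfold mass vis
    rw [sum_map_eq]
  have herg : erg f f = vis2 (gR s n) l := by
    unfold erg vis2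
    rw [sum_map_eq]
    refine tsum_congr fun x => ?_
    rw [sum_map_eq, ← ENNReal.tsum_mul_left]
    refine tsum_congr fun y => ?_
    simp only [hf, gR]
    ring
  have hone : ∀ x, oneR s n x ≠ ⊤ := by
    intro x
    unfold oneR
    split_ifs <;> simp
  have hfin : {x | f x ≠ 0}.Finite := by
    apply Set.Finite.subset (l.toFinset.finite_toSet)
    intro x hx
    rw [List.coe_toFinset]
    by_contra hc
    apply hx
    simp only [hf]
    rw [List.count_eq_zero_of_not_mem hc]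
    simp
  obtain ⟨w, hw0, hw1, hw2⟩ := hPOT f hfin
    (fun x => ENNReal.mul_ne_top (ENNReal.natCast_ne_top _) (hone x)) (by rw [hmass]; exact hne)
    (((κ / 4 : ℝ≥0) : ℝ≥0∞) * n) (by
      rw [hmass, herg]
      refine le_trans (le_of_eq ?_) h
      have h4 : ((κ / 4 : ℝ≥0) : ℝ≥0∞) * 4 = κ := by
        rw [show (4 : ℝ≥0∞) = ((4 : ℝ≥0) : ℝ≥0∞) by norm_num, ← ENNReal.coe_mul,
          div_mul_cancel₀ _ (by norm_num)]
      calc ((κ / 4 : ℝ≥0) : ℝ≥0∞) * n * (4 * vis2 (gR s n) l)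
          = ((κ / 4 : ℝ≥0) : ℝ≥0∞) * 4 * n * vis2 (gR s n) l := by ring
        _ = _ := by rw [h4])
  refine ⟨w, ?_, hw1, hw2⟩
  intro x hx
  apply hw0
  simp only [hf]
  by_cases h1 : x ∈ l
  · have h2 : x ∉ Rg s n := fun h2 => hx ⟨h1, h2⟩
    unfold oneR
    rw [if_neg h2, mul_zero]
  · rw [List.count_eq_zero_of_not_mem h1]
    simp

end Pool.Agent.H60.LP
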