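import Pool.Agent.H60.LP.QAV

/-!
# Loop percolation in dimension three: upper bound of the Green function (row GUP)
-/

set_option autoImplicit false

open MeasureTheory ProbabilityTheory Filter Topology
open scoped ENNReal NNReal

namespace Pool.Agent.H60.LP

open Pool.Agent.H62.LP

/-- sums over lists: the first letter -/
theorem tsum_list_cons {V : Type} (g : List V → ℝ≥0∞) :
    ∑' l, g l = g [] + ∑' y, ∑' t, g (y :: t) := by
  classical
  rw [ENNReal.tsum_eq_add_tsum_ite ([] : List V)]
  congr 1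
  have hi : Function.Injective (fun p : V × List V => p.1 :: p.2) := by
    rintro ⟨a, s⟩ ⟨b, t⟩ h
    simp only [List.cons.injEq] at h
    exact Prod.ext h.1 h.2
  have hs : Function.support (fun l : List V => if l = [] then 0 else g l) ⊆
      Set.range (fun p : V × List V => p.1 :: p.2) := by
    intro l hl
    cases l with
    | nil => simp at hl
    | cons a t => exact ⟨(a, t), rfl⟩
  refine Eq.trans ?_ (Eq.trans (hi.tsum_eq hs).symm ?_)
  · refine tsum_congr fun l => ?_
    split_ifs <;> rfl
  · rw [ENNReal.tsum_prod']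
    simp

/-- sums over lists: the last letter -/
theorem tsum_list_snoc {V : Type} (g : List V → ℝ≥0∞) :
    ∑' l, g l = g [] + ∑' y, ∑' t, g (t ++ [y]) := by
  have h := Equiv.tsum_eq (List.reverse_involutive (α := V)).toPerm g
  rw [← h, tsum_list_cons]
  congr 1
  refine tsum_congr fun y => ?_
  rw [← Equiv.tsum_eq (List.reverse_involutive (α := V)).toPerm (fun t => g (t ++ [y]))]
  refine tsum_congr fun t => ?_
  show g ((y :: t).reverse) = g (t.reverse ++ [y])
  rw [List.reverse_cons]

/-- the Green function as a sum over all walks -/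
theorem tsum_Gk {V : Type} (q : V → V → ℝ≥0∞) (x : V) (H : V → ℝ≥0∞) :
    ∑' y, Gk q x y * H y = ∑' l : List V, wt q x l * H (en x l) := by
  classical
  rw [tsum_list_snoc]
  simp only [wt_nil, en_nil, one_mul]
  have h1 : ∀ y, Gk q x y * H y = (if x = y then H y else 0) + Hk q x y * H y := by
    intro y
    unfold Gk
    rw [add_mul]
    congr 1
    split_ifs <;> simp
  simp only [h1]
  rw [ENNReal.tsum_add]
  congr 1
  · rw [tsum_eq_single x (fun y hy => if_neg (fun h => hy h.symm)), if_pos rfl]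
  · refine tsum_congr fun y => ?_
    unfold Hk
    rw [← ENNReal.tsum_mul_right]
    refine tsum_congr fun t => ?_
    rw [en_append]
    rfl

/-- superharmonic functions dominate the potentials of their charges -/
theorem Gk_le {V : Type} (q : V → V → ℝ≥0∞) (F H : V → ℝ≥0∞)
    (h : ∀ x, H x + ∑' y, q x y * F y ≤ F x) (x : V) : ∑' y, Gk q x y * H y ≤ F x := by
  classical
  rw [tsum_Gk]
  have main : ∀ n : ℕ, ∀ x, ∑' l : List V,
      (if l.length ≤ n then wt q x l * H (en x l) else 0) ≤ F x := by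
    intro n
    induction n with
    | zero =>
      intro x
      rw [tsum_list_cons]
      simp only [List.length_nil, le_refl, if_true, wt_nil, en_nil, one_mul, List.length_cons,
        Nat.le_zero, Nat.succ_ne_zero, if_false, tsum_zero, add_zero]
      exact le_trans le_self_add (h x)
    | succ n ih =>
      intro x
      rw [tsum_list_cons]
      simp only [List.length_nil, Nat.zero_le, if_true, wt_nil, en_nil, one_mul,
        List.length_cons, Nat.succ_le_succ_iff, Nat.add_le_add_iff_right]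
      refine le_trans (add_le_add_right ?_ _) (h x)
      refine ENNReal.tsum_le_tsum fun y => ?_
      have e1 : ∀ t : List V, (if t.length ≤ n then wt q x (y :: t) * H (en x (y :: t)) else 0) =
          q x y * (if t.length ≤ n then wt q y t * H (en y t) else 0) := by
        intro t
        split_ifs
        · rw [wt_cons, en_cons, mul_assoc]
        · rw [mul_zero]
      simp only [e1]
      rw [ENNReal.tsum_mul_left]
      exact mul_le_mul_right (ih y) _
  rw [ENNReal.tsum_eq_iSup_sum]
  refine iSup_le fun s => ?_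
  refine le_trans ?_ (main (s.sup List.length) x)
  refine le_trans ?_ (ENNReal.sum_le_tsum s)
  refine Finset.sum_le_sum fun l hl => ?_
  rw [if_pos (Finset.le_sup (f := List.length) hl)]

theorem nm_sq_le (x : V3) : ((nm x : ℕ) : ℝ) ^ 2 ≤ ∑ i, (x i : ℝ) ^ 2 := by
  obtain ⟨i, -, hi⟩ := Finset.exists_mem_eq_sup (Finset.univ : Finset (Fin 3))
    ⟨0, Finset.mem_univ _⟩ (fun i => (x i).natAbs)
  have h1 : nm x = (x i).natAbs := hi
  rw [h1]
  have h2 : (((x i).natAbs : ℕ) : ℝ) ^ 2 = (x i : ℝ) ^ 2 := by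
    rw [← sq_abs (x i : ℝ)]
    congr 1
    rw [← Int.cast_abs, Int.abs_eq_natAbs]
    simp
  rw [h2]
  exact Finset.single_le_sum (f := fun i => (x i : ℝ) ^ 2) (fun j _ => sq_nonneg _)
    (Finset.mem_univ i)

theorem ff_nonneg (K : ℝ) (x : V3) : 0 ≤ ff K x := by unfold ff; positivity

theorem ff_le (K : ℝ) (hK : 1 ≤ K) (x : V3) : ff K x ≤ 2 / (1 + (nm x : ℝ)) := by
  unfold ff
  have h1 := nm_sq_le x
  have h2 : (0 : ℝ) ≤ nm x := Nat.cast_nonneg _
  rw [div_le_div_iff₀ (Real.sqrt_pos.2 (by nlinarith)) (by positivity), one_mul]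
  have h3 : (1 + (nm x : ℝ)) / 2 ≤ Real.sqrt (K + ∑ i, (x i : ℝ) ^ 2) := by
    apply Real.le_sqrt_of_sq_le
    nlinarith [sq_nonneg ((nm x : ℝ) - 1)]
  linarith

theorem avg_nonneg (f : V3 → ℝ) (hf : ∀ y, 0 ≤ f y) (x : V3) : 0 ≤ avg f x := by
  unfold avg
  have : 0 ≤ ∑ i : Fin 3, (f (x + Pi.single i 1) + f (x - Pi.single i 1)) :=
    Finset.sum_nonneg fun i _ => add_nonneg (hf _) (hf _)
  positivity

theorem pf_GUP (hLAP : T_LAP) (hQAV : T_QAV) (hGTR : T_GTR) : T_GUP := by
  obtain ⟨K, C, hK, hC, h0, hx⟩ := hLAP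
  set h0' : ℝ := ff K 0 - avg (ff K) 0 with hh0
  have key : ∀ x : V3, Gr x 0 * ENNReal.ofReal h0' ≤ ENNReal.ofReal (2 / (1 + (nm x : ℝ))) := by
    intro x
    have h1 := Gk_le Q (fun y => ENNReal.ofReal (ff K y))
      (fun y => ENNReal.ofReal (ff K y - avg (ff K) y)) (fun y => by
        rw [hQAV.2.2 (ff K) y (ff_nonneg K), ← ENNReal.ofReal_add (hx y).1
          (avg_nonneg _ (ff_nonneg K) y)]
        apply le_of_eq
        congr 1
        ring) x
    refine le_trans (le_trans ?_ h1) (ENNReal.ofReal_le_ofReal (ff_le K hK x))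
    exact ENNReal.le_tsum (f := fun y => Gk Q x y * ENNReal.ofReal (ff K y - avg (ff K) y)) 0
  refine ⟨Real.toNNReal (max 1 (2 / h0')), ?_, fun x y => ?_⟩
  · rw [← Real.toNNReal_one]
    exact Real.toNNReal_le_toNNReal (le_max_left _ _)
  · have h2 : Gr x y = Gr (x - y) 0 := by
      have := (hGTR (x - y) 0 y).1
      rw [sub_add_cancel, zero_add] at this
      exact this
    rw [h2]
    have h3 := key (x - y)
    have h4 : ENNReal.ofReal h0' ≠ 0 := by
      rw [Ne, ENNReal.ofReal_eq_zero, not_le]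
      exact h0
    have h5 := (ENNReal.le_div_iff_mul_le (Or.inl h4) (Or.inl ENNReal.ofReal_ne_top)).2 h3
    refine le_trans h5 ?_
    rw [← ENNReal.ofReal_div_of_pos h0]
    have h6 : ((Real.toNNReal (max 1 (2 / h0')) : ℝ≥0) : ℝ≥0∞) =
        ENNReal.ofReal (max 1 (2 / h0')) := rfl
    have h7 : ((1 + nm (x - y) : ℕ) : ℝ≥0∞) = ENNReal.ofReal (1 + (nm (x - y) : ℝ)) := by
      rw [ENNReal.ofReal_add (by norm_num) (Nat.cast_nonneg _), ENNReal.ofReal_one,
        ENNReal.ofReal_natCast]
      push_cast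
      rfl
    rw [h6, h7, ← ENNReal.ofReal_div_of_pos (by positivity)]
    apply ENNReal.ofReal_le_ofReal
    rw [div_right_comm]
    apply div_le_div_of_nonneg_right _ (by positivity)
    exact le_max_right _ _

end Pool.Agent.H60.LP
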