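import Pool.Agent.H60.LP.UH2
import Pool.Agent.H60.LP.CNT

/-!
# Loop percolation in dimension three: the hitting lemma (HLM)
-/

set_option autoImplicit false

open MeasureTheory ProbabilityTheory Filter Topology
open scoped ENNReal NNReal

namespace Pool.Agent.H60.LP

open Pool.Agent.H62.LP

theorem Rg_eq (s : ℤ) (n : ℕ) : Rg s n = Bl (cen s n) n := rfl

theorem far_Rg {s : ℤ} (hs : s = 1 ∨ s = -1) {n : ℕ} {x y : V3} (hx : x ∈ Bl 0 (2 * n))
    (hy : y ∈ Rg s n) : n ≤ nm (x - y) := by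
  have h1 := (nm_le_iff _ _).1 hx 0
  have h2 := (nm_le_iff _ _).1 hy 0
  have h3 := (nm_le_iff (x - y) _).1 le_rfl 0
  simp only [Pi.sub_apply, Pi.zero_apply, cen, Pi.single_eq_same] at h1 h2 h3
  rcases hs with rfl | rfl <;> omega

theorem tsum_oneR (s : ℤ) (n : ℕ) : ∑' b, oneR s n b = ((2 * n + 1 : ℕ) : ℝ≥0∞) ^ 3 := by
  classical
  have hfin : (Rg s n).Finite := Bl_finite _ _
  have h1 : ∀ b, oneR s n b = if b ∈ hfin.toFinset then 1 else 0 := by
    intro b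
    unfold oneR
    simp only [Set.Finite.mem_toFinset]
  simp only [h1]
  rw [tsum_eq_sum (s := hfin.toFinset) (fun b hb => if_neg hb), Finset.sum_ite_mem,
    Finset.inter_self, Finset.sum_const, nsmul_eq_mul, mul_one, ← Set.ncard_eq_toFinset_card _ hfin,
    Rg_eq, Bl_ncard]
  push_cast
  rfl

theorem vis2_prod {V : Type} (f g : V → ℝ≥0∞) (l : List V) :
    vis2 (fun b b' => f b * g b') l = vis f l * vis g l := by
  unfold vis2 vis
  have h1 : ∀ b, (l.map (fun b' => f b * g b')).sum = f b * (l.map g).sum :=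
    fun b => List.sum_map_mul_left l g (f b)
  simp only [h1]
  rw [← List.sum_map_mul_right l f]

open Classical in
theorem oneR_gr_le {C : ℝ≥0} {s : ℤ} {n : ℕ} (hn : 1 ≤ n)
    (hC : ∀ (x z : V3) (r : ℕ),
      ∑' y, (if y ∈ Bl z r then Gr x y else 0) ≤ C * ((1 + r : ℕ) : ℝ≥0∞) ^ 2) :
    ∑' b, ∑' b', oneR s n b * oneR s n b' * Gr b b' ≤ 108 * C * (n : ℝ≥0∞) ^ 5 := by
  have h1 : ∀ b, ∑' b', oneR s n b * oneR s n b' * Gr b b' ≤
      oneR s n b * (C * ((1 + n : ℕ) : ℝ≥0∞) ^ 2) := by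
    intro b
    have h2 : ∀ b', oneR s n b * oneR s n b' * Gr b b' =
        oneR s n b * (if b' ∈ Bl (cen s n) n then Gr b b' else 0) := by
      intro b'
      unfold oneR
      by_cases hb' : b' ∈ Rg s n
      · rw [if_pos hb', if_pos (show b' ∈ Bl (cen s n) n from hb'), mul_one]
      · rw [if_neg hb', if_neg (show ¬ b' ∈ Bl (cen s n) n from hb')]
        simp
    simp only [h2]
    rw [ENNReal.tsum_mul_left]
    exact mul_le_mul_right (hC b (cen s n) n) _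
  refine (ENNReal.tsum_le_tsum h1).trans ?_
  rw [ENNReal.tsum_mul_right, tsum_oneR]
  have h3 : ((2 * n + 1 : ℕ) : ℝ≥0∞) ≤ 3 * n := by
    exact_mod_cast (by omega : 2 * n + 1 ≤ 3 * n)
  have h4 : ((1 + n : ℕ) : ℝ≥0∞) ≤ 2 * n := by
    exact_mod_cast (by omega : 1 + n ≤ 2 * n)
  calc ((2 * n + 1 : ℕ) : ℝ≥0∞) ^ 3 * (C * ((1 + n : ℕ) : ℝ≥0∞) ^ 2)
      ≤ (3 * (n : ℝ≥0∞)) ^ 3 * (C * (2 * (n : ℝ≥0∞)) ^ 2) := by
        gcongr
    _ = 108 * C * (n : ℝ≥0∞) ^ 5 := by ring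

theorem pf_HLM (hHLA : T_HLA) (hHLF : T_HLF) (hUP2 : T_UP2) (hUH2 : T_UH2) (hCS : T_CS)
    (hGSU : T_GSU) : T_HLM := by
  classical
  intro C₀ c M hGU hGB
  obtain ⟨c₂, κ, hc₂, hκ, hX⟩ := hHLA C₀ c M hGU hGB
  obtain ⟨C, hC⟩ := hGSU C₀ hGU.2
  set D : ℝ≥0 := 2 * 216 ^ 2 * C₀ ^ 5 * C ^ 2 + 1 with hD
  refine ⟨c₂ ^ 4 / D, κ / 4, by positivity, by positivity, ?_⟩
  intro n s hn hs e he hW
  set W := mass e with hWd
  set N : ℝ≥0∞ := (n : ℝ≥0∞) with hN
  have hN0 : N ≠ 0 := by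
    rw [hN]
    exact_mod_cast (by omega : n ≠ 0)
  have hNt : N ≠ ⊤ := ENNReal.natCast_ne_top _
  set one := oneR s n with hone
  set G : List V3 → Prop := fun l => ((∀ x ∈ l, x ∈ Bl 0 (M * n)) ∧
    (κ : ℝ≥0∞) * (n : ℝ≥0∞) * vis2 (gR s n) l ≤ vis one l ^ 2) ∧ vis e l ≠ 0 ∧ vis one l ≠ 0
    with hG
  set gI : List V3 → ℝ≥0∞ := fun l => if G l then 1 else 0 with hgI
  set hR : List V3 → ℝ≥0∞ := fun l => if ∃ y ∈ l, y ∈ Rg s n then 1 else 0 with hhR
  have hfar : ∀ x ∈ Bl 0 (2 * n), ∀ y ∈ Rg s n, n ≤ nm (x - y) :=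
    fun x hx y hy => far_Rg hs hx hy
  -- the sum of HLA
  have hX1 := hX n s hn hs e he hW
  set X : ℝ≥0∞ := ∑' l : List V3,
      if (∀ x ∈ l, x ∈ Bl 0 (M * n)) ∧
          (κ : ℝ≥0∞) * (n : ℝ≥0∞) * vis2 (gR s n) l ≤ vis (oneR s n) l ^ 2 then
        lw l * (vis e l * vis (oneR s n) l) else 0 with hXd
  have hX2 : X = ∑' l : List V3, lw l * vis e l * (vis one l * gI l) := by
    rw [hXd]
    refine tsum_congr fun l => ?_
    by_cases h1 : (∀ x ∈ l, x ∈ Bl 0 (M * n)) ∧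
          (κ : ℝ≥0∞) * (n : ℝ≥0∞) * vis2 (gR s n) l ≤ vis (oneR s n) l ^ 2
    · rw [if_pos h1]
      by_cases h2 : vis e l = 0
      · rw [h2]; simp
      · by_cases h3 : vis one l = 0
        · rw [← hone, h3]; simp
        · have h4 : G l := ⟨h1, h2, h3⟩
          simp only [hgI, if_pos h4, ← hone]
          ring
    · rw [if_neg h1]
      have h4 : ¬ G l := fun h => h1 h.1
      simp only [hgI, if_neg h4]
      simp
  -- first Cauchy-Schwarz
  set A : ℝ≥0∞ := ∑' l : List V3, lw l * vis e l * vis one l ^ 2 with hA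
  set B : ℝ≥0∞ := ∑' l : List V3, lw l * vis e l * gI l ^ 2 with hB
  have hCS1 : X ^ 2 ≤ A * B := by
    rw [hX2]
    exact hCS (List V3) (fun l => lw l * vis e l) (fun l => vis one l) gI
  have hA1 : A ≤ 216 * C₀ ^ 2 * C * N ^ 3 * W := by
    have h1 := hUP2 C₀ hGU n hn (Bl 0 (2 * n)) (Rg s n) hfar e (fun b b' => one b * one b') he
      (by
        intro b b' hbb
        constructor
        · by_contra hc
          apply hbb
          simp only [hone, oneR, if_neg hc, zero_mul]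
        · by_contra hc
          apply hbb
          simp only [hone, oneR, if_neg hc, mul_zero])
      (fun b b' => mul_comm _ _)
    have h2 : A = ∑' l : List V3, lw l * (vis e l * vis2 (fun b b' => one b * one b') l) := by
      rw [hA]
      refine tsum_congr fun l => ?_
      rw [vis2_prod]
      ring
    rw [h2]
    refine h1.trans ?_
    have h3 := oneR_gr_le (s := s) hn (fun x z r => (hC x z r).1)
    rw [← hone] at h3
    calc 2 * ((C₀ : ℝ≥0∞) / N) ^ 2 * (W * ∑' b, ∑' b', one b * one b' * Gr b b')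
        ≤ 2 * ((C₀ : ℝ≥0∞) / N) ^ 2 * (W * (108 * C * N ^ 5)) := by gcongr
      _ = 216 * C₀ ^ 2 * C * N ^ 3 * W * ((N⁻¹ * N) ^ 2) := by
          rw [div_eq_mul_inv]; ring
      _ = _ := by rw [ENNReal.inv_mul_cancel hN0 hNt]; ring
  have hB1 : B ^ 2 ≤ (2 * (C₀ / N) * erg e e) * hitFat (κ / 4) M n s e := by
    have h1 : B = ∑' l : List V3, lw l * (vis e l * hR l * gI l) := by
      rw [hB]
      refine tsum_congr fun l => ?_
      by_cases h2 : G l
      · have h3 : ∃ y ∈ l, y ∈ Rg s n := by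
          by_contra hc
          push Not at hc
          apply h2.2.2
          unfold vis
          apply List.sum_eq_zero
          intro t ht
          rw [List.mem_map] at ht
          obtain ⟨y, hy, rfl⟩ := ht
          simp only [hone, oneR, if_neg (hc y hy)]
        simp only [hgI, hhR, if_pos h2, if_pos h3]
        ring
      · simp only [hgI, if_neg h2]
        simp
    rw [h1]
    refine (hCS (List V3) (fun l => lw l) (fun l => vis e l * hR l) gI).trans ?_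
    refine mul_le_mul' ?_ ?_
    · have h2 := hUH2 C₀ hGU n hn (Bl 0 (2 * n)) (Rg s n) hfar e he
      refine le_trans (le_of_eq (tsum_congr fun l => ?_)) h2
      simp only [hhR]
      split_ifs <;> ring
    · unfold hitFat
      refine ENNReal.tsum_le_tsum fun l => ?_
      by_cases h2 : G l
      · have h3 : (∀ x ∈ l, x ∈ Bl 0 (M * n)) ∧ (∃ x ∈ l, e x ≠ 0) ∧
            Fat (κ / 4) n {x | x ∈ l ∧ x ∈ Rg s n} := by
          refine ⟨h2.1.1, ?_, hHLF κ n s l h2.1.2 h2.2.2⟩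
          by_contra hc
          push Not at hc
          apply h2.2.1
          unfold vis
          apply List.sum_eq_zero
          intro t ht
          rw [List.mem_map] at ht
          obtain ⟨y, hy, rfl⟩ := ht
          exact hc y hy
        rw [if_pos h3]
        simp only [hgI, if_pos h2]
        simp
      · simp only [hgI, if_neg h2]
        simp
  -- conclusion
  set E := erg e e with hE
  set hF := hitFat (κ / 4) M n s e with hhF
  by_cases hW0 : W = 0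
  · rw [hW0]; simp
  have h4 : (c₂ * N * W) ^ 4 ≤ (D : ℝ≥0∞) * N ^ 5 * W ^ 2 * E * hF := by
    have h5 : (c₂ * N * W) ^ 4 ≤ (A * B) ^ 2 := by
      calc (c₂ * N * W) ^ 4 ≤ X ^ 4 := by gcongr
        _ = (X ^ 2) ^ 2 := by ring
        _ ≤ (A * B) ^ 2 := by gcongr
    refine h5.trans ?_
    calc (A * B) ^ 2 = A ^ 2 * B ^ 2 := by ring
      _ ≤ (216 * C₀ ^ 2 * C * N ^ 3 * W) ^ 2 * ((2 * (C₀ / N) * E) * hF) := by gcongr
      _ = (2 * 216 ^ 2 * C₀ ^ 5 * C ^ 2) * N ^ 5 * W ^ 2 * E * hF * (N⁻¹ * N) := by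
          rw [div_eq_mul_inv]; ring
      _ = (2 * 216 ^ 2 * C₀ ^ 5 * C ^ 2) * N ^ 5 * W ^ 2 * E * hF := by
          rw [ENNReal.inv_mul_cancel hN0 hNt, mul_one]
      _ ≤ (D : ℝ≥0∞) * N ^ 5 * W ^ 2 * E * hF := by
          gcongr
          rw [hD]
          push_cast
          exact le_self_add
  have h6 : (N ^ 4 * W ^ 2) * (c₂ ^ 4 * W ^ 2) ≤ (N ^ 4 * W ^ 2) * (D * (N * E * hF)) := by
    calc (N ^ 4 * W ^ 2) * (c₂ ^ 4 * W ^ 2) = (c₂ * N * W) ^ 4 := by ring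
      _ ≤ _ := h4
      _ = _ := by ring
  have h7 := (ENNReal.mul_le_mul_iff_right
    (mul_ne_zero (pow_ne_zero 4 hN0) (pow_ne_zero 2 hW0))
    (ENNReal.mul_ne_top (ENNReal.pow_ne_top hNt) (ENNReal.pow_ne_top hW))).1 h6
  have hD0 : (D : ℝ≥0∞) ≠ 0 := by
    rw [Ne, ENNReal.coe_eq_zero, hD]
    positivity
  have h8 : ((c₂ ^ 4 / D : ℝ≥0) : ℝ≥0∞) = (c₂ : ℝ≥0∞) ^ 4 / D := by
    rw [ENNReal.coe_div (by rw [hD]; positivity), ENNReal.coe_pow]
  rw [h8]
  calc (c₂ : ℝ≥0∞) ^ 4 / D * W ^ 2 = c₂ ^ 4 * W ^ 2 / D := by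
        rw [div_eq_mul_inv, div_eq_mul_inv]; ring
    _ ≤ D * (N * E * hF) / D := by gcongr
    _ = N * E * hF := by
        rw [mul_div_assoc, ENNReal.mul_div_cancel hD0 ENNReal.coe_ne_top]
    _ ≤ _ := le_rfl

end Pool.Agent.H60.LP
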