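import Pool.Agent.H60.LP.GUP

/-!
# Loop percolation in dimension three: a superharmonic function (row LAP)
-/

set_option autoImplicit false

open MeasureTheory ProbabilityTheory Filter Topology
open scoped ENNReal NNReal

namespace Pool.Agent.H60.LP

open Pool.Agent.H62.LP

theorem inv_sqrt_le (a P : ℝ) (ha : 0 < a) (hP : 0 < P) (h : 1 ≤ P ^ 2 * a) :
    1 / Real.sqrt a ≤ P := by
  rw [div_le_iff₀ (Real.sqrt_pos.2 ha)]
  have h1 : 1 / P ≤ Real.sqrt a := by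
    apply Real.le_sqrt_of_sq_le
    rw [div_pow, one_pow, div_le_iff₀ (by positivity)]
    linarith
  rw [div_le_iff₀ hP] at h1
  linarith

theorem le_inv_sqrt (a P : ℝ) (ha : 0 < a) (hP : 0 < P) (h : P ^ 2 * a ≤ 1) :
    P ≤ 1 / Real.sqrt a := by
  rw [le_div_iff₀ (Real.sqrt_pos.2 ha)]
  have h1 : Real.sqrt a ≤ 1 / P := by
    rw [Real.sqrt_le_left (by positivity), div_pow, one_pow, le_div_iff₀ (by positivity)]
    linarith
  rw [le_div_iff₀ hP] at h1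
  linarith

theorem pow_bounds (v : ℝ) (h : |v| ≤ 1 / 4) : v ≤ 1 / 4 ∧ -(1 / 4) ≤ v ∧ v ^ 2 ≤ 1 / 16 ∧
    v ^ 3 ≤ 1 / 64 ∧ -(1 / 64) ≤ v ^ 3 ∧ v ^ 5 ≤ 1 / 1024 ∧ -(1 / 1024) ≤ v ^ 5 := by
  have h1 := abs_le.1 h
  have h2 : v ^ 2 ≤ 1 / 16 := by nlinarith [sq_abs v, abs_nonneg v]
  have h3 : |v ^ 3| ≤ 1 / 64 := by
    rw [abs_pow]
    calc |v| ^ 3 ≤ (1 / 4) ^ 3 := pow_le_pow_left₀ (abs_nonneg v) h 3
      _ = 1 / 64 := by norm_num
  have h5 : |v ^ 5| ≤ 1 / 1024 := by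
    rw [abs_pow]
    calc |v| ^ 5 ≤ (1 / 4) ^ 5 := pow_le_pow_left₀ (abs_nonneg v) h 5
      _ = 1 / 1024 := by norm_num
  have h3' := abs_le.1 h3
  have h5' := abs_le.1 h5
  exact ⟨h1.2, h1.1, h2, h3'.2, h3'.1, h5'.2, h5'.1⟩

theorem one_upper (v : ℝ) (h : |v| ≤ 1 / 4) :
    1 / Real.sqrt (1 + v) ≤ 1 - v / 2 + 3 / 8 * v ^ 2 - 5 / 16 * v ^ 3 + v ^ 4 := by
  obtain ⟨h1, h2, h3, h4, h5, h6, h7⟩ := pow_bounds v h
  have h8 : 0 ≤ v ^ 2 := sq_nonneg v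
  have h9 : 0 ≤ v ^ 4 := by positivity
  apply inv_sqrt_le _ _ (by linarith) (by linarith)
  have e : (1 - v / 2 + 3 / 8 * v ^ 2 - 5 / 16 * v ^ 3 + v ^ 4) ^ 2 * (1 + v) =
      1 + v ^ 4 * (93 / 64 + 39 / 32 * v - 99 / 256 * v ^ 2 + 57 / 256 * v ^ 3 +
        3 / 8 * v ^ 4 + v ^ 5) := by ring
  rw [e]
  have : 0 ≤ 93 / 64 + 39 / 32 * v - 99 / 256 * v ^ 2 + 57 / 256 * v ^ 3 +
        3 / 8 * v ^ 4 + v ^ 5 := by linarith
  have := mul_nonneg h9 this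
  linarith

theorem one_lower (v : ℝ) (h : |v| ≤ 1 / 4) :
    1 - v / 2 + 3 / 8 * v ^ 2 - 5 / 16 * v ^ 3 ≤ 1 / Real.sqrt (1 + v) := by
  obtain ⟨h1, h2, h3, h4, h5, h6, h7⟩ := pow_bounds v h
  have h8 : 0 ≤ v ^ 2 := sq_nonneg v
  have h9 : 0 ≤ v ^ 4 := by positivity
  apply le_inv_sqrt _ _ (by linarith) (by linarith)
  have e : (1 - v / 2 + 3 / 8 * v ^ 2 - 5 / 16 * v ^ 3) ^ 2 * (1 + v) =
      1 - v ^ 4 * (35 / 64 - 7 / 32 * v + 35 / 256 * v ^ 2 - 25 / 256 * v ^ 3) := by ring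
  rw [e]
  have : 0 ≤ 35 / 64 - 7 / 32 * v + 35 / 256 * v ^ 2 - 25 / 256 * v ^ 3 := by linarith
  have := mul_nonneg h9 this
  linarith

theorem sum_upper (v : ℝ) (h : |v| ≤ 1 / 4) :
    1 / Real.sqrt (1 + v) + 1 / Real.sqrt (1 - v) ≤ 2 + 3 / 4 * v ^ 2 + 2 * v ^ 4 := by
  have h1 := one_upper v h
  have h2 := one_upper (-v) (by rwa [abs_neg])
  rw [← sub_eq_add_neg] at h2
  have e1 : (-v) ^ 2 = v ^ 2 := by ring
  have e2 : (-v) ^ 3 = - v ^ 3 := by ring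
  have e3 : (-v) ^ 4 = v ^ 4 := by ring
  rw [e1, e2, e3] at h2
  linarith

theorem sum_lower (v : ℝ) (h : |v| ≤ 1 / 4) :
    2 + 3 / 4 * v ^ 2 ≤ 1 / Real.sqrt (1 + v) + 1 / Real.sqrt (1 - v) := by
  have h1 := one_lower v h
  have h2 := one_lower (-v) (by rwa [abs_neg])
  rw [← sub_eq_add_neg] at h2
  have e1 : (-v) ^ 2 = v ^ 2 := by ring
  have e2 : (-v) ^ 3 = - v ^ 3 := by ring
  rw [e1, e2] at h2
  linarith

theorem c_lower (w : ℝ) (h0 : 0 ≤ w) (h1 : w ≤ 1 / 16) :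
    1 + w / 2 + 3 / 8 * w ^ 2 ≤ 1 / Real.sqrt (1 - w) := by
  apply le_inv_sqrt _ _ (by linarith) (by positivity)
  have e : (1 + w / 2 + 3 / 8 * w ^ 2) ^ 2 * (1 - w) =
      1 - w ^ 3 * (5 / 8 + 15 / 64 * w + 9 / 64 * w ^ 2) := by ring
  rw [e]
  have : 0 ≤ w ^ 3 * (5 / 8 + 15 / 64 * w + 9 / 64 * w ^ 2) := by positivity
  linarith

theorem c_upper (w : ℝ) (h0 : 0 ≤ w) (h1 : w ≤ 1 / 16) :
    1 / Real.sqrt (1 - w) ≤ 1 + w / 2 + w ^ 2 := by
  apply inv_sqrt_le _ _ (by linarith) (by positivity)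
  have e : (1 + w / 2 + w ^ 2) ^ 2 * (1 - w) =
      1 + w ^ 2 * (5 / 4 - 5 / 4 * w - w ^ 3) := by ring
  rw [e]
  have h3 : w ^ 3 ≤ 1 / 16 := by
    have : w ^ 3 = w * w ^ 2 := by ring
    nlinarith [sq_nonneg w]
  have : 0 ≤ w ^ 2 * (5 / 4 - 5 / 4 * w - w ^ 3) := by
    apply mul_nonneg (sq_nonneg w)
    linarith
  linarith

theorem scale (s u : ℝ) (hs : 0 < s) :
    1 / Real.sqrt (s + u) = 1 / Real.sqrt s * (1 / Real.sqrt (1 + u / s)) := by
  have : s + u = s * (1 + u / s) := by field_simp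
  rw [this, Real.sqrt_mul hs.le, one_div_mul_one_div]

/-- the norm of a neighbour -/
theorem nsq_add (x : V3) (i : Fin 3) (e : ℤ) (he : e ^ 2 = 1) :
    ∑ j, (((x + Pi.single i e : V3) j : ℤ) : ℝ) ^ 2 = ∑ j, (x j : ℝ) ^ 2 + 2 * e * x i + 1 := by
  have he' : (e : ℝ) ^ 2 = 1 := by exact_mod_cast he
  rw [Fin.sum_univ_three, Fin.sum_univ_three]
  fin_cases i <;> simp [Pi.single_apply] <;> nlinarith

theorem pf_LAP : T_LAP := by
  have main : ∀ x : V3, 0 < ff 15 x - avg (ff 15) x ∧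
      ff 15 x - avg (ff 15) x ≤ 54 / (1 + (nm x : ℝ)) ^ 5 := by
    intro x
    set N : ℝ := ∑ i, (x i : ℝ) ^ 2 with hN
    have hN0 : 0 ≤ N := Finset.sum_nonneg fun i _ => sq_nonneg _
    obtain ⟨s, hs⟩ : ∃ s : ℝ, s = 16 + N := ⟨_, rfl⟩
    have hs16 : 16 ≤ s := by linarith
    have hs0 : 0 < s := by linarith
    set r : ℝ := Real.sqrt s with hr
    have hr0 : 0 < r := Real.sqrt_pos.2 hs0
    have hr2 : r ^ 2 = s := Real.sq_sqrt hs0.le
    -- the values at the neighbours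
    have hnb1 : ∀ i, ff 15 (x + Pi.single i 1) = 1 / r * (1 / Real.sqrt (1 + 2 * x i / s)) := by
      intro i
      unfold ff
      rw [nsq_add x i 1 (by norm_num), ← scale s _ hs0]
      congr 2
      rw [hs, hN]; push_cast; ring
    have hnb2 : ∀ i, ff 15 (x - Pi.single i 1) = 1 / r * (1 / Real.sqrt (1 - 2 * x i / s)) := by
      intro i
      have e1 : x - Pi.single i 1 = x + Pi.single i (-1) := by
        rw [sub_eq_add_neg, Pi.single_neg]
      have e2 : 1 - 2 * (x i : ℝ) / s = 1 + (-(2 * (x i : ℝ))) / s := by ring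
      unfold ff
      rw [e1, nsq_add x i (-1) (by norm_num), e2, ← scale s _ hs0]
      congr 2
      rw [hs, hN]; push_cast; ring
    have hfx : ff 15 x = 1 / r * (1 / Real.sqrt (1 - 1 / s)) := by
      have e2 : 1 - 1 / s = 1 + (-1) / s := by ring
      unfold ff
      rw [e2, ← scale s _ hs0]
      congr 2
      rw [hs]; ring
    -- the arguments are small
    have hv : ∀ i, |2 * (x i : ℝ) / s| ≤ 1 / 4 := by
      intro i
      rw [abs_div, abs_of_pos hs0, div_le_iff₀ hs0, abs_mul, abs_two]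
      have h1 : (x i : ℝ) ^ 2 ≤ N :=
        Finset.single_le_sum (f := fun i => (x i : ℝ) ^ 2) (fun j _ => sq_nonneg _)
          (Finset.mem_univ i)
      have h2 := sq_abs (x i : ℝ)
      nlinarith [sq_nonneg (|(x i : ℝ)| - 4)]
    -- sums of powers
    have hsum2 : ∑ i, (2 * (x i : ℝ) / s) ^ 2 = 4 * N / s ^ 2 := by
      rw [hN, Finset.mul_sum, Finset.sum_div]
      refine Finset.sum_congr rfl fun i _ => ?_
      rw [div_pow, mul_pow]
      norm_num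
    have hsum4 : ∑ i, (2 * (x i : ℝ) / s) ^ 4 ≤ 16 / s ^ 2 := by
      have h1 : ∑ i, (2 * (x i : ℝ) / s) ^ 4 ≤ (∑ i, (2 * (x i : ℝ) / s) ^ 2) ^ 2 := by
        rw [Fin.sum_univ_three, Fin.sum_univ_three]
        nlinarith [mul_nonneg (sq_nonneg (2 * (x 0 : ℝ) / s)) (sq_nonneg (2 * (x 1 : ℝ) / s)),
          mul_nonneg (sq_nonneg (2 * (x 0 : ℝ) / s)) (sq_nonneg (2 * (x 2 : ℝ) / s)),
          mul_nonneg (sq_nonneg (2 * (x 1 : ℝ) / s)) (sq_nonneg (2 * (x 2 : ℝ) / s))]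
      refine h1.trans ?_
      rw [hsum2, div_pow, div_le_div_iff₀ (by positivity) (by positivity)]
      have h2 : N ^ 2 ≤ s ^ 2 := pow_le_pow_left₀ hN0 (by linarith) 2
      have h3 : (4 * N) ^ 2 * s ^ 2 = 16 * (N ^ 2 * s ^ 2) := by ring
      have h4 : 16 * (s ^ 2) ^ 2 = 16 * (s ^ 2 * s ^ 2) := by ring
      rw [h3, h4]
      have h5 := mul_le_mul_of_nonneg_right h2 (sq_nonneg s)
      linarith
    -- the mean
    have havg : avg (ff 15) x = 1 / r * ((∑ i, (1 / Real.sqrt (1 + 2 * x i / s) +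
        1 / Real.sqrt (1 - 2 * x i / s))) / 6) := by
      unfold avg
      simp only [hnb1, hnb2]
      rw [← mul_div_assoc, Finset.mul_sum]
      congr 1
      refine Finset.sum_congr rfl fun i _ => ?_
      ring
    have hup : (∑ i, (1 / Real.sqrt (1 + 2 * x i / s) + 1 / Real.sqrt (1 - 2 * x i / s))) / 6 ≤
        1 + N / (2 * s ^ 2) + 16 / 3 / s ^ 2 := by
      have h1 : ∑ i, (1 / Real.sqrt (1 + 2 * x i / s) + 1 / Real.sqrt (1 - 2 * x i / s)) ≤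
          ∑ i : Fin 3, (2 + 3 / 4 * (2 * (x i : ℝ) / s) ^ 2 + 2 * (2 * (x i : ℝ) / s) ^ 4) :=
        Finset.sum_le_sum fun i _ => sum_upper _ (hv i)
      have e1 : 3 / 4 * (4 * N / s ^ 2) = 6 * (N / (2 * s ^ 2)) := by field_simp; ring
      have e0 : ∑ i : Fin 3, (2 + 3 / 4 * (2 * (x i : ℝ) / s) ^ 2 + 2 * (2 * (x i : ℝ) / s) ^ 4) =
          6 + 6 * (N / (2 * s ^ 2)) + 2 * ∑ i : Fin 3, (2 * (x i : ℝ) / s) ^ 4 := by
        rw [Finset.sum_add_distrib, Finset.sum_add_distrib, ← Finset.mul_sum, ← Finset.mul_sum,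
          hsum2, Finset.sum_const, Finset.card_univ, Fintype.card_fin, e1]
        norm_num
      have e2 : (16 : ℝ) / s ^ 2 = 3 * (16 / 3 / s ^ 2) := by ring
      rw [e0] at h1
      rw [e2] at hsum4
      linarith
    have hlow : 1 + N / (2 * s ^ 2) ≤
        (∑ i, (1 / Real.sqrt (1 + 2 * x i / s) + 1 / Real.sqrt (1 - 2 * x i / s))) / 6 := by
      have h1 : ∑ i : Fin 3, (2 + 3 / 4 * (2 * (x i : ℝ) / s) ^ 2) ≤
          ∑ i, (1 / Real.sqrt (1 + 2 * x i / s) + 1 / Real.sqrt (1 - 2 * x i / s)) :=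
        Finset.sum_le_sum fun i _ => sum_lower _ (hv i)
      have e1 : 3 / 4 * (4 * N / s ^ 2) = 6 * (N / (2 * s ^ 2)) := by field_simp; ring
      have e0 : ∑ i : Fin 3, (2 + 3 / 4 * (2 * (x i : ℝ) / s) ^ 2) =
          6 + 6 * (N / (2 * s ^ 2)) := by
        rw [Finset.sum_add_distrib, ← Finset.mul_sum,
          hsum2, Finset.sum_const, Finset.card_univ, Fintype.card_fin, e1]
        norm_num
      rw [e0] at h1
      linarith
    have hw0 : 0 ≤ 1 / s := by positivity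
    have hw1 : 1 / s ≤ 1 / 16 := one_div_le_one_div_of_le (by norm_num) hs16
    have hcl := c_lower (1 / s) hw0 hw1
    have hcu := c_upper (1 / s) hw0 hw1
    have eN : 1 / s / 2 - N / (2 * s ^ 2) = 8 / s ^ 2 := by
      have : N = s - 16 := by linarith
      rw [this]
      field_simp
      ring
    have e3 : (1 / s) ^ 2 = 1 / s ^ 2 := by rw [div_pow, one_pow]
    rw [e3] at hcl hcu
    have hs2 : 0 < 1 / s ^ 2 := by positivity
    have e8 : 8 / s ^ 2 = 8 * (1 / s ^ 2) := by ring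
    have e16 : 16 / 3 / s ^ 2 = 16 / 3 * (1 / s ^ 2) := by ring
    rw [e8] at eN
    rw [e16] at hup
    have hdiff : ff 15 x - avg (ff 15) x = 1 / r * (1 / Real.sqrt (1 - 1 / s) -
        (∑ i, (1 / Real.sqrt (1 + 2 * x i / s) + 1 / Real.sqrt (1 - 2 * x i / s))) / 6) := by
      rw [hfx, havg]; ring
    rw [hdiff]
    have hr1 : 0 < 1 / r := by positivity
    constructor
    · apply mul_pos hr1
      linarith
    · have h1 : 1 / Real.sqrt (1 - 1 / s) -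
        (∑ i, (1 / Real.sqrt (1 + 2 * x i / s) + 1 / Real.sqrt (1 - 2 * x i / s))) / 6 ≤
          9 * (1 / s ^ 2) := by linarith
      refine (mul_le_mul_of_nonneg_left h1 hr1.le).trans ?_
      have e4 : 1 / r * (9 * (1 / s ^ 2)) = 9 / (r * s ^ 2) := by
        field_simp
      rw [e4, div_le_div_iff₀ (by positivity) (by positivity)]
      have hn0 : (0 : ℝ) ≤ nm x := Nat.cast_nonneg _
      have hn2 := nm_sq_le x
      have h2 : (1 + (nm x : ℝ)) ^ 2 ≤ 2 * s := by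
        nlinarith [sq_nonneg ((nm x : ℝ) - 1)]
      have h3 : 1 + (nm x : ℝ) ≤ 3 / 2 * r := by
        apply le_of_sq_le_sq _ (by positivity)
        nlinarith
      have h4 : (1 + (nm x : ℝ)) ^ 4 ≤ 4 * s ^ 2 := by
        have : (1 + (nm x : ℝ)) ^ 4 = ((1 + (nm x : ℝ)) ^ 2) ^ 2 := by ring
        rw [this]
        have h5 := pow_le_pow_left₀ (by positivity) h2 2
        calc ((1 + (nm x : ℝ)) ^ 2) ^ 2 ≤ (2 * s) ^ 2 := h5
          _ = 4 * s ^ 2 := by ring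
      have h5 : (1 + (nm x : ℝ)) ^ 5 ≤ 4 * s ^ 2 * (3 / 2 * r) := by
        have : (1 + (nm x : ℝ)) ^ 5 = (1 + (nm x : ℝ)) ^ 4 * (1 + (nm x : ℝ)) := by ring
        rw [this]
        exact mul_le_mul h4 h3 (by positivity) (by positivity)
      linarith
  refine ⟨15, 54, by norm_num, by norm_num, (main 0).1, fun x => ⟨(main x).1.le, (main x).2⟩⟩

end Pool.Agent.H60.LP
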