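import Pool.Agent.H60.LP.SYM

/-!
# Loop percolation in dimension three: the transition matrix and the mean (row QAV)
-/

set_option autoImplicit false

open MeasureTheory ProbabilityTheory Filter Topology
open scoped ENNReal NNReal

namespace Pool.Agent.H60.LP

open Pool.Agent.H62.LP

/-- the six neighbours -/
def nb (x : V3) (p : Fin 3 × Bool) : V3 :=
  if p.2 then x + Pi.single p.1 1 else x - Pi.single p.1 1

theorem nb_inj (x : V3) : Function.Injective (nb x) := by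
  rintro ⟨i, a⟩ ⟨j, b⟩ h
  have h0 := congrFun h 0
  have h1 := congrFun h 1
  have h2 := congrFun h 2
  revert h0 h1 h2
  cases a <;> cases b <;> fin_cases i <;> fin_cases j <;>
    simp [nb, Pi.single_apply] <;> omega

theorem adj_iff (x y : V3) : Adj x y ↔ ∃ p, nb x p = y := by
  constructor
  · intro h
    unfold Adj at h
    rw [Fin.sum_univ_three] at h
    have key : (y 0 = x 0 + 1 ∧ y 1 = x 1 ∧ y 2 = x 2) ∨ (y 0 = x 0 - 1 ∧ y 1 = x 1 ∧ y 2 = x 2) ∨
        (y 0 = x 0 ∧ y 1 = x 1 + 1 ∧ y 2 = x 2) ∨ (y 0 = x 0 ∧ y 1 = x 1 - 1 ∧ y 2 = x 2) ∨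
        (y 0 = x 0 ∧ y 1 = x 1 ∧ y 2 = x 2 + 1) ∨ (y 0 = x 0 ∧ y 1 = x 1 ∧ y 2 = x 2 - 1) := by
      rcases abs_cases (x 0 - y 0) with ⟨e0, _⟩ | ⟨e0, _⟩ <;>
      rcases abs_cases (x 1 - y 1) with ⟨e1, _⟩ | ⟨e1, _⟩ <;>
      rcases abs_cases (x 2 - y 2) with ⟨e2, _⟩ | ⟨e2, _⟩ <;>
      (rw [e0, e1, e2] at h; omega)
    rcases key with ⟨h0, h1, h2⟩ | ⟨h0, h1, h2⟩ | ⟨h0, h1, h2⟩ | ⟨h0, h1, h2⟩ | ⟨h0, h1, h2⟩ |
      ⟨h0, h1, h2⟩
    · refine ⟨(0, true), ?_⟩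
      funext i; fin_cases i <;> simp [nb, Pi.single_apply, h0, h1, h2]
    · refine ⟨(0, false), ?_⟩
      funext i; fin_cases i <;> simp [nb, Pi.single_apply, h0, h1, h2]
    · refine ⟨(1, true), ?_⟩
      funext i; fin_cases i <;> simp [nb, Pi.single_apply, h0, h1, h2]
    · refine ⟨(1, false), ?_⟩
      funext i; fin_cases i <;> simp [nb, Pi.single_apply, h0, h1, h2]
    · refine ⟨(2, true), ?_⟩
      funext i; fin_cases i <;> simp [nb, Pi.single_apply, h0, h1, h2]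
    · refine ⟨(2, false), ?_⟩
      funext i; fin_cases i <;> simp [nb, Pi.single_apply, h0, h1, h2]
  · rintro ⟨⟨i, a⟩, rfl⟩
    unfold Adj
    rw [Fin.sum_univ_three]
    cases a <;> fin_cases i <;> simp [nb, Pi.single_apply]

theorem tsum_Q (x : V3) (g : V3 → ℝ≥0∞) :
    ∑' y, Q x y * g y = ∑ p, (6 : ℝ≥0∞)⁻¹ * g (nb x p) := by
  classical
  have h6 : ∀ y, Adj x y → Q x y = (6 : ℝ≥0∞)⁻¹ := by
    intro y hy
    unfold Q
    rw [if_pos hy]
    norm_num
  rw [tsum_eq_sum (s := Finset.univ.image (nb x))]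
  · rw [Finset.sum_image (fun a _ b _ h => nb_inj x h)]
    refine Finset.sum_congr rfl fun p _ => ?_
    rw [h6 _ ((adj_iff x _).2 ⟨p, rfl⟩)]
  · intro y hy
    have : ¬ Adj x y := by
      intro h
      obtain ⟨p, hp⟩ := (adj_iff x y).1 h
      exact hy (Finset.mem_image.2 ⟨p, Finset.mem_univ _, hp⟩)
    unfold Q
    rw [if_neg this, zero_mul]

theorem sum_nb {M : Type} [AddCommMonoid M] (x : V3) (g : V3 → M) :
    ∑ p, g (nb x p) = ∑ i : Fin 3, (g (x + Pi.single i 1) + g (x - Pi.single i 1)) := by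
  rw [Fintype.sum_prod_type]
  refine Finset.sum_congr rfl fun i _ => ?_
  rw [Fintype.sum_bool]
  rfl

theorem pf_QAV : T_QAV := by
  refine ⟨Q_symm, fun x => ?_, fun f x hf => ?_⟩
  · have h := tsum_Q x (fun _ => 1)
    simp only [mul_one] at h
    rw [h, Finset.sum_const]
    have : (Finset.univ : Finset (Fin 3 × Bool)).card = 6 := rfl
    rw [this, nsmul_eq_mul]
    norm_num
    exact ENNReal.mul_inv_cancel (by norm_num) (by norm_num)
  · rw [tsum_Q, ← Finset.mul_sum, ← ENNReal.ofReal_sum_of_nonneg (fun p _ => hf _)]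
    have h1 : (6 : ℝ≥0∞)⁻¹ = ENNReal.ofReal (6⁻¹ : ℝ) := by
      rw [ENNReal.ofReal_inv_of_pos (by norm_num)]
      norm_num
    rw [h1, ← ENNReal.ofReal_mul (by norm_num)]
    congr 1
    have h2 := sum_nb x f
    rw [h2]
    unfold avg
    rw [inv_mul_eq_div]

end Pool.Agent.H60.LP
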