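import Pool.Agent.H62.LP.T1

/-!
# Loop percolation in dimension three: reversal, translations (rows SYM, GTR)
-/

set_option autoImplicit false

open MeasureTheory ProbabilityTheory Filter Topology
open scoped ENNReal NNReal

namespace Pool.Agent.H60.LP

open Pool.Agent.H62.LP

theorem wt_rev {V : Type} (q : V → V → ℝ≥0∞) (hq : ∀ x y, q x y = q y x) (t : List V) :
    ∀ x y : V, wt q x (t ++ [y]) = wt q y (t.reverse ++ [x]) := by
  induction t with
  | nil =>
    intro x y
    simp [hq x y]
  | cons z t ih =>
    intro x y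
    have h1 : wt q x ((z :: t) ++ [y]) = q x z * wt q z (t ++ [y]) := rfl
    rw [h1, ih z y, List.reverse_cons, wt_append q y (t.reverse ++ [z]) [x], en_append]
    simp only [en_cons, en_nil, wt_cons, wt_nil, mul_one]
    rw [hq x z, mul_comm]

theorem pf_SYM : T_SYM := by
  intro V q hq
  refine ⟨fun x y t => wt_rev q hq t x y, fun x y => ?_⟩
  unfold Hk
  have h := Equiv.tsum_eq (List.reverse_involutive (α := V)).toPerm
    (fun t : List V => wt q y (t ++ [x]))
  rw [← h]
  refine tsum_congr fun t => ?_
  exact wt_rev q hq t x y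

theorem Q_symm {d : ℕ} (x y : Vt d) : Q x y = Q y x := by
  have h : Adj x y = Adj y x := by
    unfold Adj
    have : ∀ i, |x i - y i| = |y i - x i| := fun i => abs_sub_comm _ _
    simp only [this]
  unfold Q
  rw [h]

theorem Q_trans {d : ℕ} (x y z : Vt d) : Q (x + z) (y + z) = Q x y := by
  have h : Adj (x + z) (y + z) = Adj x y := by
    unfold Adj
    simp only [Pi.add_apply, add_sub_add_right_eq_sub]
  unfold Q
  rw [h]

theorem wt_trans {d : ℕ} (z : Vt d) (t : List (Vt d)) :
    ∀ x : Vt d, wt Q (x + z) (t.map (· + z)) = wt Q x t := by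
  induction t with
  | nil => intro x; rfl
  | cons y t ih =>
    intro x
    simp only [List.map_cons, wt_cons, Q_trans, ih]

theorem pf_GTR (hSYM : T_SYM) : T_GTR := by
  intro x y z
  constructor
  · show Gk Q (x + z) (y + z) = Gk Q x y
    unfold Gk
    congr 1
    · have h : (x + z = y + z) = (x = y) := propext (add_left_inj z)
      rw [h]
    · unfold Hk
      have h := Equiv.tsum_eq (Equiv.listEquivOfEquiv (Equiv.addRight z))
        (fun t : List V3 => wt Q (x + z) (t ++ [y + z]))
      rw [← h]
      refine tsum_congr fun t => ?_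
      have h1 : (Equiv.listEquivOfEquiv (Equiv.addRight z)) t = t.map (· + z) := rfl
      rw [h1]
      have h2 : t.map (· + z) ++ [y + z] = (t ++ [y]).map (· + z) := by simp
      rw [h2, wt_trans]
  · show Gk Q x y = Gk Q y x
    unfold Gk
    rw [(hSYM V3 Q Q_symm).2 x y]
    congr 1
    have h : (x = y) = (y = x) := propext eq_comm
    rw [h]

end Pool.Agent.H60.LP
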