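import Pool.Agent.H60.LP.FAT
import Pool.Agent.H60.LP.GUP

/-!
# Loop percolation in dimension three: loops which visit a far away set (UH2)
-/

set_option autoImplicit false

open MeasureTheory ProbabilityTheory Filter Topology
open scoped ENNReal NNReal

namespace Pool.Agent.H60.LP

open Pool.Agent.H62.LP

/-- `vis` on loops -/
noncomputable def visC {V : Type} (f : V → ℝ≥0∞) (c : Cycle V) : ℝ≥0∞ := (c.toMultiset.map f).sum

theorem visC_coe {V : Type} (f : V → ℝ≥0∞) (l : List V) : visC f (l : Cycle V) = vis f l := by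
  unfold visC vis
  rw [Cycle.coe_toMultiset, Multiset.map_coe, Multiset.sum_coe]

theorem nm_symm (x y : V3) : nm (x - y) = nm (y - x) := by
  unfold nm
  congr 1
  funext i
  simp only [Pi.sub_apply]
  omega

theorem Hk_le_Gk {V : Type} (q : V → V → ℝ≥0∞) (x y : V) : Hk q x y ≤ Gk q x y := by
  unfold Gk
  exact le_add_self

theorem Hk_far {C₀ : ℝ≥0} (hGU : HGU C₀) {n : ℕ} {x y : V3} (h : n ≤ nm (x - y)) :
    Hk Q x y ≤ (C₀ : ℝ≥0∞) / (n : ℝ≥0∞) := by
  refine (Hk_le_Gk Q x y).trans ((hGU.2 x y).trans ?_)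
  apply ENNReal.div_le_div_left
  exact_mod_cast (by omega : n ≤ 1 + nm (x - y))

theorem pf_UH2 (hMOM : T_MOM) (hHIT : T_HIT) (hHT2 : T_HT2) (hQAV : T_QAV) :
    T_UH2 := by
  classical
  have hSYM : T_SYM := pf_SYM
  intro C₀ hGU n hn U S hUS e he
  set h : ℝ≥0∞ := (C₀ : ℝ≥0∞) / (n : ℝ≥0∞) with hh
  have hQ1 : ∀ x : V3, ∑' y, Q x y ≤ 1 := fun x => (hQAV.2.1 x).le
  have heS : ∀ a, e a ≠ 0 → a ∉ S := by
    intro a ha haS
    have := hUS a (he a ha) a haS
    rw [sub_self] at this
    have h0 : nm (0 : V3) = 0 := by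
      unfold nm
      simp
    omega
  have hfar : ∀ y ∈ S, ∀ a, e a ≠ 0 → Hk Q y a ≤ h := by
    intro y hy a ha
    apply Hk_far hGU
    rw [nm_symm]
    exact hUS a (he a ha) y hy
  set F : Cycle V3 → ℝ≥0∞ := fun c => if ∃ y ∈ c, y ∈ S then visC e c else 0 with hF
  have h1 : ∑' l : List V3, (if ∃ y ∈ l, y ∈ S then lw l * vis e l ^ 2 else 0) =
      ∑' l : List V3, lw l * (vis e l * F (l : Cycle V3)) := by
    refine tsum_congr fun l => ?_
    simp only [hF, Cycle.mem_coe_iff, visC_coe]
    split_ifs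
    · ring
    · simp
  rw [h1, hMOM 3 e F]
  -- bound of the terms
  have h2 : ∀ a : V3, ∑' t : List V3, (if t = [] then 0 else
      e a * (wt Q a (t ++ [a]) * F ((a :: t : List V3) : Cycle V3))) ≤
      e a * (e a * h + ∑' b, e b * (h * Hk Q b a + Hk Q a b * h)) := by
    intro a
    by_cases hea : e a = 0
    · simp [hea]
    have haS := heS a hea
    have h3 : ∀ t : List V3, (if t = [] then 0 else
        e a * (wt Q a (t ++ [a]) * F ((a :: t : List V3) : Cycle V3))) ≤
        e a * (e a * (if ∃ y ∈ t, y ∈ S then wt Q a (t ++ [a]) else 0) +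
          (if ∃ y ∈ t, y ∈ S then wt Q a (t ++ [a]) * vis e t else 0)) := by
      intro t
      by_cases ht : t = []
      · rw [if_pos ht]; exact bot_le
      rw [if_neg ht]
      simp only [hF, Cycle.mem_coe_iff, visC_coe]
      have h4 : (∃ y ∈ a :: t, y ∈ S) ↔ ∃ y ∈ t, y ∈ S := by
        constructor
        · rintro ⟨y, hy, hyS⟩
          rw [List.mem_cons] at hy
          rcases hy with rfl | hy
          · exact absurd hyS haS
          · exact ⟨y, hy, hyS⟩
        · rintro ⟨y, hy, hyS⟩
          exact ⟨y, List.mem_cons_of_mem _ hy, hyS⟩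
      by_cases h5 : ∃ y ∈ t, y ∈ S
      · rw [if_pos (h4.2 h5), if_pos h5, if_pos h5]
        have h6 : vis e (a :: t) = e a + vis e t := by
          unfold vis
          rw [List.map_cons, List.sum_cons]
        rw [h6]
        apply le_of_eq
        ring
      · rw [if_neg (fun h => h5 (h4.1 h)), if_neg h5, if_neg h5]
        simp
    refine (ENNReal.tsum_le_tsum h3).trans ?_
    rw [ENNReal.tsum_mul_left, ENNReal.tsum_add, ENNReal.tsum_mul_left]
    refine mul_le_mul_right (add_le_add (mul_le_mul_right ?_ _) ?_) _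
    · exact hHIT V3 Q hQ1 S h a a (fun y hy => hfar y hy a hea)
    · refine hHT2 V3 Q hQ1 S h e a a ?_ ?_
      · intro y hy
        by_contra hc
        exact heS y hc hy
      · intro y hy b hb
        rcases hb with hb | rfl
        · exact hfar y hy b hb
        · exact hfar y hy b hea
  refine (ENNReal.tsum_le_tsum h2).trans ?_
  have hsymm : ∀ x y : V3, Hk Q x y = Hk Q y x := (hSYM V3 Q Q_symm).2
  have h7 : ∀ a : V3, e a * (e a * h + ∑' b, e b * (h * Hk Q b a + Hk Q a b * h)) ≤
      2 * h * ∑' b, e a * e b * Gr a b := by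
    intro a
    have h8 : ∀ b, e b * (h * Hk Q b a + Hk Q a b * h) = 2 * h * (e b * Hk Q a b) := by
      intro b
      rw [hsymm b a]
      ring
    simp only [h8]
    rw [ENNReal.tsum_mul_left]
    have h9 : ∑' b, e a * e b * Gr a b = e a * e a + e a * ∑' b, e b * Hk Q a b := by
      have h10 : ∀ b, e a * e b * Gr a b = (if b = a then e a * e b else 0) +
          e a * (e b * Hk Q a b) := by
        intro b
        show e a * e b * Gk Q a b = _
        unfold Gk
        by_cases hab : b = a
        · subst hab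
          simp only [if_true]
          ring
        · rw [if_neg (fun h => hab h.symm), if_neg hab]
          ring
      simp only [h10]
      rw [ENNReal.tsum_add, ENNReal.tsum_mul_left, tsum_eq_single a (fun b hb => if_neg hb),
        if_pos rfl]
    rw [h9]
    have h11 : e a * (e a * h) ≤ 2 * h * (e a * e a) := by
      have : 2 * h * (e a * e a) = e a * (e a * h) + e a * (e a * h) := by ring
      rw [this]
      exact le_self_add
    calc e a * (e a * h + 2 * h * ∑' b, e b * Hk Q a b)
        = e a * (e a * h) + 2 * h * (e a * ∑' b, e b * Hk Q a b) := by ring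
      _ ≤ 2 * h * (e a * e a) + 2 * h * (e a * ∑' b, e b * Hk Q a b) := add_le_add_left h11 _
      _ = _ := by ring
  refine (ENNReal.tsum_le_tsum h7).trans ?_
  rw [ENNReal.tsum_mul_left]
  exact le_rfl

end Pool.Agent.H60.LP
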